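import Mathlib
import Pool.Agent.K7.H57.EU.Bound
import Pool.Agent.K7.H57.EU.Copies

/-!
# Two double rays joined by an edge are not edge-ubiquitous

There is a countable graph which contains `n` pairwise edge-disjoint copies of the graph `F` (two disjoint
double rays joined by an edge) for every `n`, but no infinite family of pairwise edge-disjoint
copies of `F`.

The graph is described in `Pool/Agent/K7/H57/EU/Graph.lean`. The idea: between two vertices `a k` and
`a (k + 1)` there are infinitely many edge-disjoint paths, all of which are blocked by a single ray `t k`, and `k` further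
paths. A copy of `F` contains disjoint rays starting at two fixed vertices `a 0` and `u`; either the first ray
ends in one of the rays `t k`, or it passes all vertices `a k` and then the second one has
to be one of the rays `t k`. So every copy blocks one of the connections. If `k` is the smallest number
of a connection blocked by a family of copies, then the family is finite, because every copy has to
pass this connection; but the number of copies is not bounded, as `k` can be large.
-/

set_option autoImplicit false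

namespace Pool.Agent.Results.MP_b399ad_co.NotEdgeUbiquitous

/-- Two disjoint double rays `(false, z)` and `(true, z)`, `z ∈ ℤ`, and the edge joining `(false, 0)` and
`(true, 0)`. -/
def F : SimpleGraph (Bool × ℤ) where
  Adj x y := (x.1 = y.1 ∧ (y.2 = x.2 + 1 ∨ x.2 = y.2 + 1)) ∨ (x.1 ≠ y.1 ∧ x.2 = 0 ∧ y.2 = 0)
  symm := ⟨fun x y h => by
    rcases h with ⟨h1, h2⟩ | ⟨h1, h2, h3⟩
    · exact Or.inl ⟨h1.symm, h2.symm⟩
    · exact Or.inr ⟨fun h => h1 h.symm, h3, h2⟩⟩
  loopless := ⟨fun x h => by
    rcases h with ⟨_, h2⟩ | ⟨h1, _⟩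
    · omega
    · exact h1 rfl⟩

/-- The edges of a copy (the image of an injective homomorphism). -/
def copyEdges {V : Type} {G : SimpleGraph V} (f : F →g G) : Set (Sym2 V) :=
  {e | ∃ x y, F.Adj x y ∧ e = s(f x, f y)}

/-- `G` contains a family of pairwise edge-disjoint copies of `F` indexed by `ι`. -/
def EdgeDisjointCopies {V : Type} (G : SimpleGraph V) (ι : Type) : Prop :=
  ∃ f : ι → (F →g G), (∀ i, Function.Injective (f i)) ∧
    ∀ i j, i ≠ j → Disjoint (copyEdges (f i)) (copyEdges (f j))

theorem F_eq : F = Pool.Agent.K7.H57.EU.H := by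
  ext x y
  rw [Pool.Agent.K7.H57.EU.H, SimpleGraph.fromRel_adj]
  obtain ⟨c, z⟩ := x
  obtain ⟨c', z'⟩ := y
  simp only [F, ne_eq, Prod.mk.injEq, not_and]
  constructor
  · rintro (⟨rfl, h⟩ | ⟨h1, rfl, rfl⟩)
    · refine ⟨fun _ => by omega, ?_⟩
      rcases h with h | h
      · exact Or.inl (Or.inl ⟨rfl, h.symm⟩)
      · exact Or.inr (Or.inl ⟨rfl, h.symm⟩)
    · exact ⟨fun h => absurd h h1, Or.inl (Or.inr ⟨h1, rfl, rfl⟩)⟩
  · rintro ⟨_, (⟨rfl, h⟩ | ⟨h1, rfl, rfl⟩) | (⟨rfl, h⟩ | ⟨h1, rfl, rfl⟩)⟩
    · exact Or.inl ⟨rfl, Or.inl h.symm⟩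
    · exact Or.inr ⟨h1, rfl, rfl⟩
    · exact Or.inl ⟨rfl, Or.inr h.symm⟩
    · exact Or.inr ⟨fun h => h1 h.symm, rfl, rfl⟩

/-- An injection of the vertices into triples of natural numbers. -/
def code : Pool.Agent.K7.H57.EU.V → ℕ × ℕ × ℕ
  | .u => (0, 0, 0)
  | .b => (1, 0, 0)
  | .v i => (2, i, 0)
  | .r m n => (3, m, n)
  | .a k => (4, k, 0)
  | .t k n => (5, k, n)
  | .s k j => (6, k, j)
  | .w k l => (7, k, l)

theorem code_inj : Function.Injective code := by
  intro x y h
  cases x <;> cases y <;> simp_all [code]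

theorem result : ∃ (V : Type) (_ : Countable V) (G : SimpleGraph V),
    (∀ n : ℕ, EdgeDisjointCopies G (Fin n)) ∧
      ∀ ι : Type, EdgeDisjointCopies G ι → Finite ι := by
  refine ⟨Pool.Agent.K7.H57.EU.V, code_inj.countable, Pool.Agent.K7.H57.EU.G, ?_, ?_⟩
  · intro n
    refine ⟨fun i => ⟨Pool.Agent.K7.H57.EU.cpHom n i, fun {x y} h => ?_⟩, ?_, ?_⟩
    · rw [F_eq] at h
      exact (Pool.Agent.K7.H57.EU.cpHom n i).map_rel h
    · intro i
      exact Pool.Agent.K7.H57.EU.cp_inj n i
    · intro i j hij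
      rw [Set.disjoint_left]
      rintro e ⟨x, y, hxy, rfl⟩ ⟨x', y', _, h2⟩
      rw [F_eq] at hxy
      exact Pool.Agent.K7.H57.EU.cp_disj (p := x) (q := y) (p' := x') (q' := y') i.2
        (fun he => hij (Fin.ext he)) hxy h2
  · rintro ι ⟨f, hf, hd⟩
    by_contra hfin
    have : Infinite ι := not_finite_iff_infinite.1 hfin
    let g := Infinite.natEmbedding ι
    refine Pool.Agent.K7.H57.EU.no_infinite
      (fun n => ⟨f (g n), fun {x y} h => (f (g n)).map_rel (by rw [F_eq]; exact h)⟩)
      (fun n => hf (g n)) ?_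
    rintro i j hij x y ⟨p, q, hpq, h1, h2⟩ ⟨p', q', hpq', h3, h4⟩
    rw [← F_eq] at hpq hpq'
    have hdis := Set.disjoint_left.1 (hd (g i) (g j) fun h => hij (g.injective h))
    have m1 : s(x, y) ∈ copyEdges (f (g i)) := ⟨p, q, hpq, by rw [← h1, ← h2]; rfl⟩
    have m2 : s(x, y) ∈ copyEdges (f (g j)) := ⟨p', q', hpq', by rw [← h3, ← h4]; rfl⟩
    exact hdis m1 m2

end Pool.Agent.Results.MP_b399ad_co.NotEdgeUbiquitous
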